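import Pool.Agent.Q136.RH.Fin

/-!
# Rohrlich's conjecture for almost all members of families with commensurable arguments

The numbers `a_i` are affine functions with rational coefficients of one of `n` rational parameters:
`a_i = c_i t_{j(i)} + x_i`. Arguments with the same parameter are commensurable, so that the reflection and the
multiplication formula act on them, and Rohrlich's identity may hold for all values of the parameters
(`Γ(t) Γ(1 - t)`, `Γ(t) Γ(t + 1/2) Γ(1 - 2t) ...`) or not. We prove the open direction of the conjecture for all but few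
values of the parameters, for the multiples `α π ^ (r/2)` whose factor `α` is of bounded complexity over the numbers
`e(t_k / N)` and `p ^ (t_k / N)`, which are the numbers that appear in the known formulas.
-/

set_option autoImplicit false

namespace Pool.Agent.Results.MP_c2409d_nt.CommensurableArguments

/-- the numbers `a_i = c_i t_{j(i)} + x_i` -/
def args {n r : ℕ} (c x : Fin r → ℚ) (j : Fin r → Fin n) (t : Fin n → ℚ) (i : Fin r) : ℚ := c i * t (j i) + x i

/-- The condition of Rohrlich's conjecture, for every common denominator `D` of the numbers `a_i` and every `m` prime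
to `D`: the sum of the fractional parts of the numbers `m a_i` is `r / 2`. -/
def Identity {r : ℕ} (a : Fin r → ℚ) : Prop :=
  ∀ D : ℕ, 0 < D → (∀ i, ∃ k : ℤ, D * a i = k) → ∀ m : ℕ, m.Coprime D → ∑ i, Int.fract (m * a i) = r / 2

/-- the numbers `exp(2 π i t_k / N)` and `p ^ (t_k / N)`, where `p` is one of the first `B` prime numbers -/
noncomputable def elementary {n : ℕ} (N B : ℕ) (t : Fin n → ℚ) (v : Fin n × Option (Fin B)) : ℂ :=
  v.2.elim (Complex.exp (2 * Real.pi * Complex.I * (t v.1 / N)))
    fun b => (((Nat.nth Nat.Prime b : ℝ) ^ ((t v.1 : ℝ) / N) : ℝ) : ℂ)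

/-- `α` satisfies with the elementary numbers a nontrivial polynomial relation of degree at most `d` in each variable,
whose coefficients are integers of absolute value at most `H`. -/
def Simple {n : ℕ} (N B d : ℕ) (H : ℝ) (t : Fin n → ℚ) (α : ℂ) : Prop :=
  ∃ P : MvPolynomial (Option (Fin n × Option (Fin B))) ℤ, P ≠ 0 ∧ (∀ v, P.degreeOf v ≤ d) ∧
    (∀ s, |((P.coeff s : ℤ) : ℝ)| ≤ H) ∧ MvPolynomial.aeval (fun o => o.elim α (elementary N B t)) P = 0

/-- The parameters `t` in `X` for which the product of the `Γ(a_i)` is `α π ^ (r / 2)` with a simple `α`, although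
Rohrlich's identity fails. -/
def Exceptional {n r : ℕ} (c x : Fin r → ℚ) (j : Fin r → Fin n) (N B d : ℕ) (H : ℝ) (X : Finset ℚ) : Set (Fin n → ℚ) :=
  {t | (∀ k, t k ∈ X) ∧ ¬ Identity (args c x j t) ∧
    ∃ α : ℂ, ((∏ i, Real.Gamma (args c x j t i) : ℝ) : ℂ) = α * ((Real.pi ^ ((r : ℝ) / 2) : ℝ) : ℂ) ∧
      Simple N B d H t α}

/-- Let `c_i ≠ 0` and `x_i` be rational numbers and `[a, b]` an interval on which no `c_i s + x_i` is a pole of the gamma
function. For every finite set `X` of rational numbers of `[a, b]` with denominators at most `T`, `T` large, at most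
`C T^ε |X|^(n-1)` of the `|X|^n` tuples of parameters from `X` are exceptional. -/
theorem result (n r : ℕ) (c : Fin r → ℚ) (hc : ∀ i, c i ≠ 0) (x : Fin r → ℚ) (j : Fin r → Fin n) (a b : ℝ)
    (hpole : ∀ i (s : ℝ), a ≤ s → s ≤ b → ∀ k : ℕ, (c i : ℝ) * s + x i ≠ -k)
    (N B d : ℕ) (hN : 0 < N) (A ε : ℝ) (hε : 0 < ε) :
    ∃ C T₀ : ℝ, ∀ T : ℝ, T₀ ≤ T → ∀ X : Finset ℚ,
      (∀ q ∈ X, a ≤ (q : ℝ) ∧ (q : ℝ) ≤ b ∧ (q.den : ℝ) ≤ T) →
      (Exceptional c x j N B d (T ^ A) X).Finite ∧
      ((Exceptional c x j N B d (T ^ A) X).ncard : ℝ) ≤ C * T ^ ε * (X.card : ℝ) ^ (n - 1) := by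
  obtain ⟨C, T₀, H⟩ := Pool.Agent.Q136.RH.main n r c hc x j a b hpole N B d hN A ε hε
  refine ⟨C, T₀, fun T hT X hX => ?_⟩
  have hfin : (Exceptional c x j N B d (T ^ A) X).Finite := by
    refine (Finset.finite_toSet (Fintype.piFinset fun _ : Fin n => X)).subset ?_
    rintro q ⟨hq, -⟩
    rw [Finset.mem_coe, Fintype.mem_piFinset]
    exact hq
  refine ⟨hfin, ?_⟩
  have h1 := H T hT X hX hfin.toFinset (by
    intro t ht
    rw [Set.Finite.mem_toFinset] at ht
    obtain ⟨h1, h2, α, h3, P, h4, h5, h6, h7⟩ := ht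
    exact ⟨h1, h2, α, P, h3, h4, h5, h6, h7⟩)
  rw [Set.ncard_eq_toFinset_card _ hfin]
  exact h1

end Pool.Agent.Results.MP_c2409d_nt.CommensurableArguments
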