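import Mathlib
import Pool.Agent.Q29.RatMain
import Pool.Agent.Q29.LogGam

/-!
# Multiplicative relations between gamma values with large exponents

By Rohrlich's conjecture the products of powers of the numbers `Γ(x_j)`, `x_j` rational, are algebraic
multiples of a power of `π` only for the known reasons. We consider all multiplicative relations
`Γ(x_1)^(m_1) ⋯ Γ(x_n)^(m_n) = ξ_1^(k_1) ⋯ ξ_g^(k_g)` with integer exponents as large as `T^A`, for rational
numbers `x_j` with denominators at most `T`, where `ξ_1, …, ξ_g` are arbitrary positive real numbers (for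
instance `π` and algebraic numbers), which may depend on `T`. The relations of bounded degree are treated in
the other files of this folder; here the degree may be of the order of any power of `T`.

The proof applies the theorem `Pool.Agent.Y771.RP.mainS` on the values of locally independent analytic
functions to the function `log Γ`.
-/

set_option autoImplicit false

open NumberField

namespace Pool.Agent.Results.MP_c2409d_nt.MultiplicativeRelations

/-- The `n`-tuples `x` of elements of the finite set `X` such that for some integers `m_j`, `k_i` of absolute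
value at most `T ^ A`, with some `m_j ≠ 0`, one has `|∑ m_j log Γ(x_j) - ∑ k_i log ξ_i| ≤ T ^ (-R)`; this
contains the tuples with `∏ Γ(x_j) ^ (m_j) = ∏ ξ_i ^ (k_i)` for such exponents. -/
def Exceptional {g : ℕ} (n : ℕ) (ξ : Fin g → ℝ) (X : Finset ℚ) (A R T : ℝ) : Set (Fin n → ℚ) :=
  {x | (∀ j, x j ∈ X) ∧ ∃ (m : Fin n → ℤ) (k : Fin g → ℤ), m ≠ 0 ∧ (∀ j, |(m j : ℝ)| ≤ T ^ A) ∧
    (∀ i, |(k i : ℝ)| ≤ T ^ A) ∧
    |∑ j, (m j : ℝ) * Real.log (Real.Gamma (x j)) - ∑ i, (k i : ℝ) * Real.log (ξ i)| ≤ T ^ (-R)}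

theorem coe_int (z : ℤ) : ((z : 𝓞 ℚ) : ℚ) = (z : ℚ) := map_intCast (algebraMap (𝓞 ℚ) ℚ) z

/-- **Multiplicative relations with large exponents.** Let `0 < a ≤ b`. For all `n`, `g`, `A` and `ε > 0` there
are `R`, `C`, `T₀` such that for all positive `ξ_1, …, ξ_g`, all `T ≥ T₀` and every finite set `X` of rational
numbers of `[a, b]` with denominators at most `T`: (1) the number of exceptional `n`-tuples of elements of `X`
is at most `C T^ε |X|^(n - 1)`; (2) in particular for all but `C T^ε |X|^(n - 1)` of the `n`-tuples `x` of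
elements of `X` there is no relation `∏ Γ(x_j) ^ (m_j) = ∏ ξ_i ^ (k_i)` with integers `m_j`, not all zero, and
`k_i` of absolute value at most `T ^ A`. -/
theorem result (a b : ℝ) (ha : 0 < a) (n g : ℕ) (A ε : ℝ) (hε : 0 < ε) :
    ∃ R C T₀ : ℝ, ∀ (ξ : Fin g → ℝ), (∀ i, 0 < ξ i) → ∀ T : ℝ, T₀ ≤ T → ∀ X : Finset ℚ,
      (∀ x ∈ X, a ≤ (x : ℝ) ∧ (x : ℝ) ≤ b ∧ (x.den : ℝ) ≤ T) →
        ((Exceptional n ξ X A R T).ncard : ℝ) ≤ C * T ^ ε * (X.card : ℝ) ^ (n - 1) ∧
        (({x : Fin n → ℚ | (∀ j, x j ∈ X) ∧ ∃ (m : Fin n → ℤ) (k : Fin g → ℤ), m ≠ 0 ∧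
          (∀ j, |(m j : ℝ)| ≤ T ^ A) ∧ (∀ i, |(k i : ℝ)| ≤ T ^ A) ∧
          ∏ j, (Real.Gamma (x j)) ^ (m j) = ∏ i, (ξ i) ^ (k i)}.ncard : ℕ) : ℝ) ≤
            C * T ^ ε * (X.card : ℝ) ^ (n - 1) := by
  classical
  have hpos : ∀ t ∈ (fun x : ℝ => (x : ℂ)) '' Set.Icc a b, t ∈ Pool.Agent.Q29.LG.Pos := by
    rintro _ ⟨x, hx, rfl⟩
    exact ⟨x, ha.trans_le hx.1, rfl⟩
  obtain ⟨R, C, T₀, hC, H⟩ := Pool.Agent.Q29.RM.rat_main 1 n (g + 1) 1
    (fun (_ : Unit) => Pool.Agent.Q29.LG.lg) a b ha
    (fun _ t ht => Pool.Agent.Q29.LG.lg_an (hpos t ht))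
    (fun t ht => Pool.Agent.Q29.LG.lg_locInd t (hpos t ht)) (max A 0) ε hε
  refine ⟨R, C, max T₀ 1, fun ξ hξ T hT X hX => ?_⟩
  have hT1 : 1 ≤ T := (le_max_right _ _).trans hT
  have hT0 : 0 < T := by linarith
  have h0 := H ℚ (by simp) (algebraMap ℚ ℂ) (Fin.cons 1 fun i => ((Real.log (ξ i) : ℝ) : ℂ)) T
    ((le_max_left _ _).trans hT) X hX
  have hfin : ∀ p : (Fin n → ℚ) → Prop, {x : Fin n → ℚ | (∀ j, x j ∈ X) ∧ p x}.Finite := by
    intro p
    refine (Finset.finite_toSet (Fintype.piFinset fun _ : Fin n => X)).subset ?_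
    rintro x ⟨hx, -⟩
    rw [Finset.mem_coe, Fintype.mem_piFinset]
    exact hx
  have hA : T ^ A ≤ T ^ (max A 0) := Real.rpow_le_rpow_of_exponent_le hT1 (le_max_left _ _)
  have hA0 : (1 : ℝ) ≤ T ^ (max A 0) := Real.one_le_rpow hT1 (le_max_right _ _)
  have h1 : ((Exceptional n ξ X A R T).ncard : ℝ) ≤ C * T ^ ε * (X.card : ℝ) ^ (n - 1) := by
    refine le_trans ?_ h0
    have hsub : Exceptional n ξ X A R T ⊆ {q : Fin n → ℚ | (∀ j, q j ∈ X) ∧
        ∃ P : MvPolynomial (Fin n × Unit) ℂ, (∀ x, P.degreeOf x ≤ 1) ∧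
          (∀ s, ∃ c : Fin (g + 1) → 𝓞 ℚ, (∀ i (φ : ℚ →+* ℂ), ‖φ (c i)‖ ≤ T ^ (max A 0)) ∧
            P.coeff s = ∑ i, (Fin.cons 1 fun i => ((Real.log (ξ i) : ℝ) : ℂ) : Fin (g + 1) → ℂ) i *
              (algebraMap ℚ ℂ) (c i)) ∧
          ∃ s₀, P.coeff s₀ ≠ 0 ∧ ‖MvPolynomial.aeval
            (fun x : Fin n × Unit => Pool.Agent.Q29.LG.lg (((q x.1 : ℚ) : ℝ) : ℂ)) P‖ ≤
              T ^ (-R) * ‖P.coeff s₀‖} := by
      intro x hx
      obtain ⟨hxX, m, k, hm, hmA, hkA, hs⟩ := hx
      refine ⟨hxX, ?_⟩
      set w : ℂ := ∑ i, (k i : ℂ) * ((Real.log (ξ i) : ℝ) : ℂ) with hw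
      refine ⟨∑ j, MvPolynomial.C (m j : ℂ) * MvPolynomial.X (j, ()) - MvPolynomial.C w, ?_, ?_, ?_⟩
      · intro y
        refine (MvPolynomial.degreeOf_sub_le _ _ _).trans (max_le ?_ (by simp))
        refine (MvPolynomial.degreeOf_sum_le _ _ _).trans (Finset.sup_le fun j _ => ?_)
        refine (MvPolynomial.degreeOf_C_mul_le _ _ _).trans ?_
        rw [MvPolynomial.degreeOf_X]
        split_ifs <;> simp
      · intro s
        have hcoef : (∑ j, MvPolynomial.C (m j : ℂ) * MvPolynomial.X (j, ()) -
            MvPolynomial.C w : MvPolynomial (Fin n × Unit) ℂ).coeff s =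
            ((∑ j, (if Finsupp.single ((j, ()) : Fin n × Unit) 1 = s then m j else 0 : ℤ) : ℤ) : ℂ) -
              if 0 = s then w else 0 := by
          rw [MvPolynomial.coeff_sub, MvPolynomial.coeff_C, MvPolynomial.coeff_sum]
          congr 1
          push_cast
          refine Finset.sum_congr rfl fun j _ => ?_
          rw [MvPolynomial.coeff_C_mul, MvPolynomial.coeff_X]
          split_ifs <;> simp
        refine ⟨Fin.cons (((∑ j, (if Finsupp.single ((j, ()) : Fin n × Unit) 1 = s then m j else 0 : ℤ) : ℤ)) : 𝓞 ℚ)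
          (fun i => (((if 0 = s then - k i else 0 : ℤ)) : 𝓞 ℚ)), ?_, ?_⟩
        · intro i φ
          refine Fin.cases ?_ (fun i => ?_) i
          · rw [Fin.cons_zero]
            rw [coe_int, map_intCast, Complex.norm_intCast]
            by_cases hs1 : ∃ j : Fin n, Finsupp.single ((j, ()) : Fin n × Unit) 1 = s
            · obtain ⟨j, hj⟩ := hs1
              have e2 : (∑ j', (if Finsupp.single ((j', ()) : Fin n × Unit) 1 = s then m j' else 0 : ℤ)) = m j := by
                rw [Finset.sum_eq_single j]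
                · rw [if_pos hj]
                · intro j' _ hj'
                  rw [if_neg]
                  intro h
                  rw [← hj] at h
                  have h3 := Finsupp.single_left_injective one_ne_zero h
                  exact hj' (Prod.ext_iff.1 h3).1
                · intro h; exact absurd (Finset.mem_univ _) h
              rw [e2]
              exact (hmA j).trans hA
            · push Not at hs1
              have e2 : (∑ j', (if Finsupp.single ((j', ()) : Fin n × Unit) 1 = s then m j' else 0 : ℤ)) = 0 :=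
                Finset.sum_eq_zero fun j' _ => if_neg (hs1 j')
              rw [e2]
              simp only [Int.cast_zero, abs_zero]
              linarith
          · rw [Fin.cons_succ]
            rw [coe_int, map_intCast, Complex.norm_intCast]
            split_ifs
            · rw [Int.cast_neg, abs_neg]
              exact (hkA i).trans hA
            · simp only [Int.cast_zero, abs_zero]
              linarith
        · rw [hcoef, Fin.sum_univ_succ]
          simp only [Fin.cons_zero, Fin.cons_succ, one_mul]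
          have e1 : ∀ z : ℤ, (algebraMap ℚ ℂ) (((z : ℤ) : 𝓞 ℚ) : ℚ) = (z : ℂ) := by
            intro z
            rw [coe_int, map_intCast]
          rw [e1, sub_eq_add_neg]
          congr 1
          split_ifs with h
          · rw [hw, ← Finset.sum_neg_distrib]
            refine Finset.sum_congr rfl fun i _ => ?_
            rw [e1]
            push_cast
            ring
          · simp only [neg_zero]
            symm
            refine Finset.sum_eq_zero fun i _ => ?_
            rw [e1]
            push_cast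
            ring
      · obtain ⟨j₀, hj₀⟩ : ∃ j, m j ≠ 0 := by
          by_contra hcon
          push Not at hcon
          exact hm (funext hcon)
        have hc : (∑ j, MvPolynomial.C (m j : ℂ) * MvPolynomial.X (j, ()) -
            MvPolynomial.C w : MvPolynomial (Fin n × Unit) ℂ).coeff (Finsupp.single (j₀, ()) 1) = m j₀ := by
          rw [MvPolynomial.coeff_sub, MvPolynomial.coeff_C, MvPolynomial.coeff_sum,
            Finset.sum_eq_single j₀, if_neg, sub_zero]
          · rw [MvPolynomial.coeff_C_mul, MvPolynomial.coeff_X, if_pos rfl, mul_one]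
          · intro h
            have h3 := DFunLike.congr_fun h (j₀, ())
            simp at h3
          · intro j _ hj
            rw [MvPolynomial.coeff_C_mul, MvPolynomial.coeff_X, if_neg, mul_zero]
            intro h
            have h3 := Finsupp.single_left_injective one_ne_zero h
            exact hj (Prod.ext_iff.1 h3).1
          · intro h; exact absurd (Finset.mem_univ _) h
        refine ⟨Finsupp.single (j₀, ()) 1, ?_, ?_⟩
        · rw [hc]
          exact_mod_cast hj₀
        · rw [hc, Complex.norm_intCast]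
          have h3 : (1 : ℝ) ≤ |(m j₀ : ℝ)| := by exact_mod_cast Int.one_le_abs hj₀
          have h4 : MvPolynomial.aeval
              (fun x' : Fin n × Unit => Pool.Agent.Q29.LG.lg (((x x'.1 : ℚ) : ℝ) : ℂ))
              (∑ j, MvPolynomial.C (m j : ℂ) * MvPolynomial.X (j, ()) -
                MvPolynomial.C w : MvPolynomial (Fin n × Unit) ℂ) =
              ((∑ j, (m j : ℝ) * Real.log (Real.Gamma (x j)) - ∑ i, (k i : ℝ) * Real.log (ξ i) : ℝ) : ℂ) := by
            rw [map_sub, map_sum]
            simp only [map_mul, MvPolynomial.aeval_X, MvPolynomial.algHom_C]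
            rw [hw]
            push_cast
            congr 1
            refine Finset.sum_congr rfl fun j _ => ?_
            have hxj : (0 : ℝ) < (x j : ℝ) := ha.trans_le (hX _ (hxX j)).1
            have h6 := Pool.Agent.Q29.LG.lg_real hxj
            push_cast at h6
            rw [h6]
            simp
          rw [h4, Complex.norm_real, Real.norm_eq_abs]
          have h5 : 0 < T ^ (-R) := by positivity
          calc _ ≤ T ^ (-R) := hs
            _ = T ^ (-R) * 1 := (mul_one _).symm
            _ ≤ _ := by gcongr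
    exact_mod_cast Set.ncard_le_ncard hsub (hfin _)
  refine ⟨h1, le_trans ?_ h1⟩
  have hsub : {x : Fin n → ℚ | (∀ j, x j ∈ X) ∧ ∃ (m : Fin n → ℤ) (k : Fin g → ℤ), m ≠ 0 ∧
      (∀ j, |(m j : ℝ)| ≤ T ^ A) ∧ (∀ i, |(k i : ℝ)| ≤ T ^ A) ∧
      ∏ j, (Real.Gamma (x j)) ^ (m j) = ∏ i, (ξ i) ^ (k i)} ⊆ Exceptional n ξ X A R T := by
    rintro x ⟨hxX, m, k, hm, hmA, hkA, hprod⟩
    refine ⟨hxX, m, k, hm, hmA, hkA, ?_⟩
    have h3 := congrArg Real.log hprod
    have hxj : ∀ j, (0 : ℝ) < Real.Gamma (x j) := fun j =>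
      Real.Gamma_pos_of_pos (ha.trans_le (hX _ (hxX j)).1)
    rw [Real.log_prod (fun j _ => (zpow_pos (hxj j) _).ne'),
      Real.log_prod (fun i _ => (zpow_pos (hξ i) _).ne')] at h3
    simp only [Real.log_zpow] at h3
    rw [h3, sub_self, abs_zero]
    positivity
  exact_mod_cast Set.ncard_le_ncard hsub (hfin _)

end Pool.Agent.Results.MP_c2409d_nt.MultiplicativeRelations
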