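import Mathlib
import Pool.Agent.Q47.AB.TM
import Pool.Agent.Q165.Mono

/-!
# Products of gamma values and powers of `π`: pairs from dense sets, at every scale at most one monomial is exceptional

If a number `x` is algebraic of degree at most `D`, some value `P(x)` of a nonconstant integer polynomial of degree at
most `D` is an integer, and the property `AllGood` fails at every large scale. The property `AllGood` at the scale
`N` says that for all nonconstant integer polynomials `P` of degree at most `D` and height at most `N ^ κ` and all `M`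
from `N` to `N ^ A`, for arbitrary dense sets `A`, `B` of integers the numbers `b P(x) a ^ k c + R_c(a) + y_a`, `(a, c) ∈ A × B`, are
uniformly distributed modulo one with a power saving.

Let `t = Γ(a_1) ⋯ Γ(a_r)` with rational numbers `a_i`, none of them a nonpositive integer. The question is whether `t` is
an algebraic multiple of `π ^ (r / 2)`, that is, whether `t ^ 2 π ^ (-r)` is algebraic. We consider finitely many
monomials `π ^ a t ^ k`, `k ≠ 0`, whose exponents are pairwise non-proportional, and show that at every large scale at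
most one of them fails to have the property above; `κ` does not depend on `r` and the `a_i`.

The proof uses the measure of transcendence of `π` (and of its rational powers) and the pairs of polynomials with a
small value from the starting files `Pool/Agent/TH456/TM/`; the power map reduces monomials to pairs `s`, `x s`
(`Pool/Agent/Q165/Mono.lean`). The passage to uniform distribution is `Q47/AB/TM`, with a bilinear estimate and an inverse theorem
for the sums of Weyl (`Q47/DG/EqdK`, `H373R2/NB`).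
-/

set_option autoImplicit false

namespace Pool.Agent.Results.MP_c2409d_nt.PairsFromDenseSets

open Finset Polynomial

/-- Polynomials over two dense sets are uniformly distributed at the scale `M`, with a power saving: for all integers
`b ≠ 0` with `|b| ≤ M ^ κ`, all degrees `1 ≤ k ≤ K`, all integers `H ≥ M ^ η`, ALL sets `A` of integers in `[0, M)` and `B` of
integers in `[0, H)` with `|A| |B| ≥ M ^ (1 - κ) H`, all real numbers `y_a`, all real polynomials `R_c` of degree less than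
`k` and all `0 ≤ u ≤ v ≤ 1`, the number of the pairs `(a, c) ∈ A × B` with the fractional part of
`b x a ^ k c + R_c(a) + y_a` in `[u, v)` is `(v - u) |A| |B|`, up to `|A| |B| M ^ (-κ)`. -/
def PGood (K : ℕ) (η κ : ℝ) (M : ℕ) (x : ℝ) : Prop :=
  ∀ b : ℤ, b ≠ 0 → |(b : ℝ)| ≤ (M : ℝ) ^ κ → ∀ k : ℕ, 1 ≤ k → k ≤ K → ∀ H : ℕ, (M : ℝ) ^ η ≤ H →
    ∀ A B : Finset ℕ, (∀ a ∈ A, a < M) → (∀ c ∈ B, c < H) → (M : ℝ) ^ (1 - κ) * H ≤ #A * #B →
    ∀ (y : ℕ → ℝ) (R : ℕ → ℝ[X]), (∀ c, (R c).degree < k) → ∀ u v : ℝ, 0 ≤ u → u ≤ v → v ≤ 1 →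
      |(#{i ∈ A ×ˢ B | u ≤ Int.fract (b * x * i.1 ^ k * i.2 + (R i.2).eval (i.1 : ℝ) + y i.1) ∧
          Int.fract (b * x * i.1 ^ k * i.2 + (R i.2).eval (i.1 : ℝ) + y i.1) < v} : ℝ) -
        (v - u) * (#A * #B)| ≤ #A * #B * (M : ℝ) ^ (-κ)

/-- All the values `P(x)`, `P` a nonconstant integer polynomial of degree at most `D` with coefficients bounded by
`N ^ κ`, have the property `PGood` at all the scales `M` from `N` to `N ^ A`. If `x` is algebraic of degree at
most `D`, then this fails for all large `N`, since some `P(x)` is an integer. -/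
def AllGood (x : ℝ) (D K : ℕ) (η A κ : ℝ) (N : ℕ) : Prop :=
  ∀ P : ℤ[X], 0 < P.natDegree → P.natDegree ≤ D → (∀ n, |(P.coeff n : ℝ)| ≤ (N : ℝ) ^ κ) →
    ∀ M : ℕ, N ≤ M → (M : ℝ) ≤ (N : ℝ) ^ A → PGood K η κ M (aeval x P)

theorem allGood_iff (x : ℝ) (D K : ℕ) (η A κ : ℝ) (N : ℕ) :
    AllGood x D K η A κ N ↔ Pool.Agent.Q47.AB.AllGood (Pool.Agent.Q47.DG.PGood K η) x D A κ N := Iff.rfl

/-- monomials in `z = e` or `z = π` and a real number `t` -/
theorem core (z : ℝ) (hz : z = Real.exp 1 ∨ z = Real.pi) (S : Finset (ℤ × ℤ)) (hS : ∀ e ∈ S, e.2 ≠ 0)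
    (hSS : ∀ e ∈ S, ∀ e' ∈ S, e ≠ e' → e.1 * e'.2 ≠ e'.1 * e.2) (D K : ℕ) (η : ℝ) (hη : 0 < η) (A : ℝ) (hA : 1 ≤ A) :
    ∃ κ : ℝ, 0 < κ ∧ ∀ t : ℝ, t ≠ 0 → ∃ N₀ : ℕ, ∀ N : ℕ, N₀ ≤ N →
        {e | e ∈ S ∧ ¬ AllGood (z ^ e.1 * t ^ e.2) D K η A κ N}.Subsingleton := by
  have hz0 : 0 < z := by
    rcases hz with rfl | rfl
    · exact Real.exp_pos 1
    · exact Real.pi_pos
  have hm : Pool.Agent.TH456.TM.MeasT ((z : ℝ) : ℂ) := by
    rcases hz with rfl | rfl
    · exact Pool.Agent.TH456.TM.measT_e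
    · exact Pool.Agent.TH456.TM.measT_pi
  obtain ⟨κ, hκ, h⟩ := Pool.Agent.Q165.Mono.fam_mono z hz0 hm S hS hSS D
  obtain ⟨κ', hκ', hE⟩ := Pool.Agent.Q47.AB.allGood_of_TM (Pool.Agent.Q47.DG.PGood K η)
    (Pool.Agent.Q47.DG.Abs.engine_prod K η hη) (ι := S) D κ A hκ.le hA
  refine ⟨κ', hκ', fun t ht => ?_⟩
  obtain ⟨C, hC, h1, h2⟩ := h t (by exact_mod_cast ht)
  have hcast : ∀ e : ℤ × ℤ, ((z ^ e.1 * t ^ e.2 : ℝ) : ℂ) = (z : ℂ) ^ e.1 * (t : ℂ) ^ e.2 :=
    fun e => by rw [Complex.ofReal_mul, Complex.ofReal_zpow, Complex.ofReal_zpow]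
  obtain ⟨N₀, hN₀⟩ := hE (fun i : S => z ^ i.1.1 * t ^ i.1.2) ⟨C, hC, by
    intro i j hij P Q hP hQ hPD hQD H hPH hQH
    rw [hcast, hcast]
    exact h1 i j hij P Q hP hQ hPD hQD H hPH hQH⟩
  refine ⟨N₀, fun N hN i hi j hj => ?_⟩
  rw [Set.mem_ofPred_eq] at hi hj
  have hsub := hN₀ N hN
  have h3 : (⟨i, hi.1⟩ : S) = ⟨j, hj.1⟩ := by
    apply hsub
    · rw [Set.mem_ofPred_eq, ← allGood_iff]
      exact hi.2
    · rw [Set.mem_ofPred_eq, ← allGood_iff]
      exact hj.2
  exact congrArg Subtype.val h3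

/-- **Products of gamma values and powers of `π`.** Let `S` be a finite set of pairs of integers `(a, k)`, `k ≠ 0`, no two
of them proportional, `D`, `K` natural numbers, `η > 0` and `A ≥ 1`. There is `κ > 0` such that for all `r` and all rational
numbers `x_1, …, x_r` which are not nonpositive integers, with the product `t = Γ(x_1) ⋯ Γ(x_r)`, there is `N₀` such that
for every `N ≥ N₀` at most one of the numbers `π ^ a t ^ k`, `(a, k) ∈ S`, does not have the property `AllGood`. -/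
theorem result (S : Finset (ℤ × ℤ)) (hS : ∀ e ∈ S, e.2 ≠ 0)
    (hSS : ∀ e ∈ S, ∀ e' ∈ S, e ≠ e' → e.1 * e'.2 ≠ e'.1 * e.2) (D K : ℕ) (η : ℝ) (hη : 0 < η) (A : ℝ) (hA : 1 ≤ A) :
    ∃ κ : ℝ, 0 < κ ∧ ∀ (r : ℕ) (x : Fin r → ℚ), (∀ i, ∀ m : ℕ, x i ≠ -(m : ℚ)) →
      ∃ N₀ : ℕ, ∀ N : ℕ, N₀ ≤ N →
        {e | e ∈ S ∧ ¬ AllGood (Real.pi ^ e.1 * (∏ i, Real.Gamma (x i)) ^ e.2) D K η A κ N}.Subsingleton := by
  obtain ⟨κ, hκ, h⟩ := core Real.pi (Or.inr rfl) S hS hSS D K η hη A hA
  refine ⟨κ, hκ, fun r x hx => h _ ?_⟩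
  refine Finset.prod_ne_zero_iff.2 fun i _ => Real.Gamma_ne_zero fun m hm => hx i m ?_
  exact_mod_cast hm

end Pool.Agent.Results.MP_c2409d_nt.PairsFromDenseSets
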